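import Mathlib
import Pool.Agent.R496.GP.Final

namespace Pool.Agent.Results.MP_5b3ffa_mp.PurityMonotone

open Matrix R496

/-- The group of complexified free operations of a real vector space `L` of complex matrices: the
group of invertible matrices generated by the exponentials `exp (A + i B)` with `A, B ∈ L` and by
the nonzero scalar matrices. -/
def GCFO {ι : Type} [Fintype ι] [DecidableEq ι] (L : Submodule ℝ (Matrix ι ι ℂ)) :
    Subgroup (Matrix ι ι ℂ)ˣ :=
  Subgroup.closure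
    {u | (∃ A ∈ L, ∃ B ∈ L, (u : Matrix ι ι ℂ) = NormedSpace.exp (A + Complex.I • B)) ∨
      ∃ z : ℂ, z ≠ 0 ∧ (u : Matrix ι ι ℂ) = z • (1 : Matrix ι ι ℂ)}

/-- The purity `(1/N) ∑ i, Tr[ρ g_i]²` of a density matrix `ρ`. -/
noncomputable def purity {ι κ : Type} [Fintype ι] [Fintype κ] (g : κ → Matrix ι ι ℂ) (N : ℝ)
    (ρ : Matrix ι ι ℂ) : ℝ :=
  1 / N * ∑ i, ((ρ * g i).trace).re ^ 2

/-- The matrix `|φ⟩⟨φ|`. -/
def proj {ι : Type} (φ : ι → ℂ) : Matrix ι ι ℂ := vecMulVec φ (star φ)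

/-- The probability `⟨ψ| Mᴴ M |ψ⟩`. -/
noncomputable def prob {ι : Type} [Fintype ι] (M : Matrix ι ι ℂ) (ψ : ι → ℂ) : ℝ :=
  (star ψ ⬝ᵥ ((Mᴴ * M) *ᵥ ψ)).re

/-- The state after the operation `M`: `M |ψ⟩ / √p` with `p = ⟨ψ| Mᴴ M |ψ⟩`. -/
noncomputable def post {ι : Type} [Fintype ι] (M : Matrix ι ι ℂ) (ψ : ι → ℂ) : ι → ℂ :=
  ((√(prob M ψ))⁻¹ : ℝ) • (M *ᵥ ψ)

theorem ex_proj {ι κ : Type} [Fintype ι] [Fintype κ] (g : κ → Matrix ι ι ℂ) (φ : ι → ℂ) (i : κ) :
    ((proj φ * g i).trace).re = GP.ex (g i) φ := by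
  unfold GP.ex proj
  congr 1
  rw [vecMulVec_mul, trace_vecMulVec, dotProduct_comm, dotProduct_mulVec]

theorem prob_eq {ι : Type} [Fintype ι] (M : Matrix ι ι ℂ) (ψ : ι → ℂ) :
    prob M ψ = GP.nsq (M *ᵥ ψ) := by
  unfold prob
  rw [← GP.nsq_mulVec, Complex.ofReal_re]

theorem ex_smul {ι : Type} [Fintype ι] (H : Matrix ι ι ℂ) (φ : ι → ℂ) (r : ℝ) :
    GP.ex H (r • φ) = r ^ 2 * GP.ex H φ := by
  unfold GP.ex
  have h1 : r • φ = (r : ℂ) • φ := by
    ext a
    simp
  rw [h1, mulVec_smul, star_smul, smul_dotProduct, dotProduct_smul, smul_eq_mul, smul_eq_mul,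
    Complex.star_def, Complex.conj_ofReal, Complex.re_ofReal_mul, Complex.re_ofReal_mul]
  ring

/-- **Average purity does not decrease under complexified free operations.** -/
theorem result :
    ∀ (ι κ K : Type) [Fintype ι] [DecidableEq ι] [Fintype κ] [DecidableEq κ] [Fintype K]
      (L : Submodule ℝ (Matrix ι ι ℂ)), (∀ A ∈ L, ∀ B ∈ L, A * B - B * A ∈ L) →
      ∀ (g : κ → Matrix ι ι ℂ) (c : ℝ), 0 < c →
      (∀ i, (g i).IsHermitian) →
      (∀ i j, (g i * g j).trace = if i = j then (c : ℂ) else 0) →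
      L = Submodule.span ℝ (Set.range fun i => Complex.I • g i) →
      ∀ M : K → (Matrix ι ι ℂ)ˣ, (∀ k, M k ∈ GCFO L) →
      ∑ k, (M k : Matrix ι ι ℂ)ᴴ * (M k : Matrix ι ι ℂ) = 1 →
      ∀ ψ : ι → ℂ, star ψ ⬝ᵥ ψ = 1 →
      (∀ k, 0 < prob (M k : Matrix ι ι ℂ) ψ ∧
        star (post (M k : Matrix ι ι ℂ) ψ) ⬝ᵥ post (M k : Matrix ι ι ℂ) ψ = 1) ∧
      ∀ N : ℝ, 0 < N →
        purity g N (proj ψ) ≤
          ∑ k, prob (M k : Matrix ι ι ℂ) ψ * purity g N (proj (post (M k : Matrix ι ι ℂ) ψ)) := by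
  intro ι κ K _ _ _ _ _ L hLie g c hc hg ho hL M hM hs ψ hψ
  set CC : Submodule ℂ (Matrix ι ι ℂ) := Submodule.span ℂ (Set.range g) with hCC
  have hgC : ∀ i, g i ∈ CC := fun i => Submodule.subset_span ⟨i, rfl⟩
  -- `L ⊆ CC`
  have hLC : ∀ A ∈ L, A ∈ CC := by
    intro A hA
    have h1 : A ∈ Submodule.span ℝ (Set.range fun i => Complex.I • g i) := hL ▸ hA
    have h2 : Submodule.span ℝ (Set.range fun i => Complex.I • g i) ≤
        CC.restrictScalars ℝ := by
      rw [Submodule.span_le]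
      rintro _ ⟨i, rfl⟩
      exact CC.smul_mem _ (hgC i)
    exact h2 h1
  -- commutators of generators
  have hgen : ∀ i j, g i * g j - g j * g i ∈ CC := by
    intro i j
    have h1 : ∀ i, Complex.I • g i ∈ L := by
      intro i
      rw [hL]
      exact Submodule.subset_span ⟨i, rfl⟩
    have h2 := hLC _ (hLie _ (h1 i) _ (h1 j))
    have h3 : (Complex.I • g i) * (Complex.I • g j) - (Complex.I • g j) * (Complex.I • g i) =
        -(g i * g j - g j * g i) := by
      simp only [smul_mul_assoc, mul_smul_comm, smul_smul, Complex.I_mul_I]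
      simp [sub_eq_add_neg]
      abel
    rw [h3] at h2
    simpa using CC.neg_mem h2
  have hcomm : ∀ X ∈ CC, ∀ Y ∈ CC, X * Y - Y * X ∈ CC := by
    intro X hX Y hY
    induction hX using Submodule.span_induction with
    | mem X hX =>
      obtain ⟨i, rfl⟩ := hX
      induction hY using Submodule.span_induction with
      | mem Y hY =>
        obtain ⟨j, rfl⟩ := hY
        exact hgen i j
      | zero => simp
      | add a b _ _ ha hb =>
        have : g i * (a + b) - (a + b) * g i = (g i * a - a * g i) + (g i * b - b * g i) := by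
          noncomm_ring
        rw [this]
        exact CC.add_mem ha hb
      | smul z a _ ha =>
        rw [mul_smul_comm, smul_mul_assoc, ← smul_sub]
        exact CC.smul_mem z ha
    | zero => simp
    | add a b _ _ ha hb =>
      have : (a + b) * Y - Y * (a + b) = (a * Y - Y * a) + (b * Y - Y * b) := by noncomm_ring
      rw [this]
      exact CC.add_mem ha hb
    | smul z a _ ha =>
      rw [mul_smul_comm, smul_mul_assoc, ← smul_sub]
      exact CC.smul_mem z ha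
  have hdag : ∀ Z ∈ CC, Zᴴ ∈ CC := by
    intro Z hZ
    induction hZ using Submodule.span_induction with
    | mem X hX =>
      obtain ⟨i, rfl⟩ := hX
      rw [hg i]
      exact hgC i
    | zero => simp
    | add a b _ _ ha hb =>
      rw [conjTranspose_add]
      exact CC.add_mem ha hb
    | smul z a _ ha =>
      rw [conjTranspose_smul]
      exact CC.smul_mem _ ha
  have hG : GCFO L ≤ GP.Nrm CC := by
    unfold GCFO
    rw [Subgroup.closure_le]
    rintro u (⟨A, hA, B, hB, hu⟩ | ⟨z, hz, hu⟩)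
    · exact GP.exp_mem_Nrm CC hcomm
        (CC.add_mem (hLC A hA) (CC.smul_mem _ (hLC B hB))) u hu
    · intro Z
      have h1 : (u : Matrix ι ι ℂ) * Z * ((u⁻¹ : (Matrix ι ι ℂ)ˣ) : Matrix ι ι ℂ) = Z := by
        have h2 : (u : Matrix ι ι ℂ) * Z = Z * (u : Matrix ι ι ℂ) := by
          rw [hu]; simp
        rw [h2, mul_assoc, Units.mul_inv, mul_one]
      rw [h1]
  have hfm := GP.first_moment g c hc (fun i => hg i) ho hcomm hdag M
    (fun k => hG (hM k)) hs ψ
  have hψ1 : GP.nsq ψ = 1 := by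
    have := GP.nsq_eq ψ
    rw [hψ] at this
    exact_mod_cast this.symm
  have hpos : ∀ k, 0 < prob (M k : Matrix ι ι ℂ) ψ := by
    intro k
    rw [prob_eq]
    have h0 : 0 ≤ GP.nsq ((M k : Matrix ι ι ℂ) *ᵥ ψ) :=
      Finset.sum_nonneg fun a _ => by positivity
    rcases h0.eq_or_lt with h | h
    · exfalso
      have h1 : (M k : Matrix ι ι ℂ) *ᵥ ψ = 0 := by
        ext a
        have := (Finset.sum_eq_zero_iff_of_nonneg (fun a _ => by positivity)).mp h.symm a
          (Finset.mem_univ a)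
        exact norm_eq_zero.mp (pow_eq_zero_iff two_ne_zero |>.mp this)
      have h2 : ψ = 0 := by
        have h3 : ((((M k)⁻¹ : (Matrix ι ι ℂ)ˣ) : Matrix ι ι ℂ) * (M k : Matrix ι ι ℂ)) *ᵥ ψ =
            0 := by
          rw [← mulVec_mulVec, h1, mulVec_zero]
        rwa [Units.inv_mul, one_mulVec] at h3
      rw [h2] at hψ1
      unfold GP.nsq at hψ1
      simp at hψ1
    · exact h
  have hsum : ∑ k, prob (M k : Matrix ι ι ℂ) ψ = 1 := by
    simp_rw [prob_eq]
    rw [GP.sum_nsq (fun k => (M k : Matrix ι ι ℂ)) hs ψ, hψ1]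
  have hpex : ∀ k i, GP.ex (g i) (post (M k : Matrix ι ι ℂ) ψ) =
      (prob (M k : Matrix ι ι ℂ) ψ)⁻¹ * GP.ex (g i) ((M k : Matrix ι ι ℂ) *ᵥ ψ) := by
    intro k i
    unfold post
    rw [ex_smul, inv_pow, Real.sq_sqrt (hpos k).le]
  refine ⟨fun k => ⟨hpos k, ?_⟩, fun N hN => ?_⟩
  · rw [GP.nsq_eq]
    have h1 : GP.nsq (post (M k : Matrix ι ι ℂ) ψ) =
        (prob (M k : Matrix ι ι ℂ) ψ)⁻¹ * GP.nsq ((M k : Matrix ι ι ℂ) *ᵥ ψ) := by
      unfold GP.nsq post
      rw [Finset.mul_sum]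
      refine Finset.sum_congr rfl fun a _ => ?_
      rw [Pi.smul_apply, norm_smul, mul_pow, Real.norm_eq_abs, sq_abs, inv_pow,
        Real.sq_sqrt (hpos k).le]
    rw [h1, ← prob_eq, inv_mul_cancel₀ (hpos k).ne', Complex.ofReal_one]
  · unfold purity
    simp_rw [ex_proj, hpex, mul_pow]
    set f : K → ℝ := fun k => √(∑ i, GP.ex (g i) ((M k : Matrix ι ι ℂ) *ᵥ ψ) ^ 2) with hf
    have hf2 : ∀ k, ∑ i, GP.ex (g i) ((M k : Matrix ι ι ℂ) *ᵥ ψ) ^ 2 = f k ^ 2 := by
      intro k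
      rw [hf, Real.sq_sqrt (Finset.sum_nonneg fun i _ => by positivity)]
    have h1 : ∑ k, prob (M k : Matrix ι ι ℂ) ψ * (1 / N * ∑ i, (prob (M k : Matrix ι ι ℂ) ψ)⁻¹ ^ 2 *
        GP.ex (g i) ((M k : Matrix ι ι ℂ) *ᵥ ψ) ^ 2) =
        1 / N * ∑ k, f k ^ 2 / prob (M k : Matrix ι ι ℂ) ψ := by
      rw [Finset.mul_sum]
      refine Finset.sum_congr rfl fun k _ => ?_
      rw [← Finset.mul_sum, hf2]
      have := (hpos k).ne'
      field_simp
    rw [h1]
    apply mul_le_mul_of_nonneg_left _ (by positivity)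
    have h2 := Finset.sq_sum_div_le_sum_sq_div Finset.univ f
      (g := fun k => prob (M k : Matrix ι ι ℂ) ψ) (fun k _ => hpos k)
    rw [hsum, div_one] at h2
    refine le_trans ?_ h2
    have h3 : √(∑ i, GP.ex (g i) ψ ^ 2) ^ 2 = ∑ i, GP.ex (g i) ψ ^ 2 :=
      Real.sq_sqrt (Finset.sum_nonneg fun i _ => by positivity)
    rw [← h3]
    exact pow_le_pow_left₀ (Real.sqrt_nonneg _) hfm 2

end Pool.Agent.Results.MP_5b3ffa_mp.PurityMonotone
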